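import Pool.Agent.Results.MP_fcc599_al.ShiftFails

set_option autoImplicit false
set_option linter.unusedSectionVars false

/-!
# Basic right-cell equivalences, shifting case: counterexamples in a large class

Let `(W, S)` be a right-angled Coxeter system, `S` finite, without four pairwise commuting
generators, with generators `a, g, b, d, c` such that `a, g` commute with `b, d`, the generator `c`
commutes with `a, g, b, d`, and neither `a, g` nor `b, d` commute.  Then the statement of Q1 fails
for `(W, S)`.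
-/

namespace Pool.Agent.Results.MP_fcc599_al.AllContaining

open Module Pool.Agent.Helper703.KL Pool.Agent.Helper703.Cox Pool.Agent.H169R3.KL

/-- The Coxeter matrix of `D_∞ × D_∞ × ℤ/2` with the generators `a, g, b, d, c` (in this order):
`m(i, j) = ∞` (encoded as `0`) for `{i, j} = {0, 1}` and `{2, 3}`, all other pairs commute. -/
def M5 : CoxeterMatrix (Fin 5) where
  M := Matrix.of fun i j => if i = j then 1 else if i.val / 2 = j.val / 2 then 0 else 2
  isSymm := by
    ext i j
    fin_cases i <;> fin_cases j <;> rfl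
  diagonal := by
    intro i
    simp
  off_diagonal := by
    intro i j h
    simp only [Matrix.of_apply, h, if_false]
    split_ifs <;> norm_num

/-- No four different generators commute pairwise. -/
def NoFour {B : Type} (M : CoxeterMatrix B) : Prop :=
  ∀ s : Finset B, (∀ i ∈ s, ∀ j ∈ s, i ≠ j → M i j = 2) → s.card ≤ 3

instance (i j : Fin 5) (n : ℕ) : Decidable (M5 i j = n) :=
  inferInstanceAs (Decidable (@Eq ℕ (M5 i j) n))

section

variable {B : Type} [Fintype B] [DecidableEq B] {M : CoxeterMatrix B} {p : Fin 5 → B}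

lemma inj5 (hp : ∀ i j, M (p i) (p j) = M5 i j) : Function.Injective p := by
  intro i j h
  have h1 := hp i j
  rw [h, M.diagonal] at h1
  have h2 : ∀ i j : Fin 5, M5 i j = 1 → i = j := by decide
  exact h2 i j h1.symm

lemma ld_map (hp : ∀ i j, M (p i) (p j) = M5 i j) (s : Fin 5) (ω : List (Fin 5)) :
    ld M (p s) (ω.map p) = ld M5 s ω := by
  induction ω with
  | nil => rfl
  | cons q ω ih =>
    rw [List.map_cons]
    unfold ld
    rw [ih, hp]
    congr 1
    simp only [(inj5 hp).eq_iff]

lemma isRed_map (hp : ∀ i j, M (p i) (p j) = M5 i j) (ω : List (Fin 5)) :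
    isRed M (ω.map p) = isRed M5 ω := by
  induction ω with
  | nil => rfl
  | cons q ω ih =>
    rw [List.map_cons]
    unfold isRed
    rw [ih, ld_map hp]

lemma clq_map (hp : ∀ i j, M (p i) (p j) = M5 i j) {Q : List (Fin 5)} (h : Clq M5 Q) :
    Clq M (Q.map p) := by
  refine ⟨h.1.map (inj5 hp), ?_⟩
  intro i hi j hj hij
  obtain ⟨i', hi', rfl⟩ := List.mem_map.1 hi
  obtain ⟨j', hj', rfl⟩ := List.mem_map.1 hj
  rw [hp]
  exact h.2 i' hi' j' hj' (fun e => hij (by rw [e]))

lemma clq_le (hN : NoFour M) (Q : List B) (hQ : Clq M Q) : Q.length ≤ 3 := by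
  have h := hN Q.toFinset (fun i hi j hj => hQ.2 i (List.mem_toFinset.1 hi) j (List.mem_toFinset.1 hj))
  rwa [List.toFinset_card_of_nodup hQ.1] at h

variable {W : Type} [Group W] {cs : CoxeterSystem M W}

lemma len5 (hR : RA M) (hp : ∀ i j, M (p i) (p j) = M5 i j) {ω : List (Fin 5)}
    (h : isRed M5 ω = true) : cs.length (cs.wordProd (ω.map p)) = ω.length := by
  rw [len_word hR (by rw [isRed_map hp, h]), List.length_map]

lemma ldesc5 (hR : RA M) (hp : ∀ i j, M (p i) (p j) = M5 i j) {ω : List (Fin 5)}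
    (h : isRed M5 ω = true) {s : Fin 5} (h2 : ld M5 s ω = true) :
    cs.length (cs.simple (p s) * cs.wordProd (ω.map p)) < cs.length (cs.wordProd (ω.map p)) :=
  ldesc_word hR (by rw [isRed_map hp, h]) (by rw [ld_map hp, h2])

lemma rdesc5 (hR : RA M) (hp : ∀ i j, M (p i) (p j) = M5 i j) {ω : List (Fin 5)}
    (h : isRed M5 ω.reverse = true) {s : Fin 5} (h2 : ld M5 s ω.reverse = true) :
    cs.length (cs.wordProd (ω.map p) * cs.simple (p s)) < cs.length (cs.wordProd (ω.map p)) :=
  rdesc_word hR (by rw [← List.map_reverse, isRed_map hp, h])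
    (by rw [← List.map_reverse, ld_map hp, h2])

lemma rasc5 (hR : RA M) (hp : ∀ i j, M (p i) (p j) = M5 i j) {ω : List (Fin 5)}
    (h : isRed M5 ω.reverse = true) {s : Fin 5} (h2 : ld M5 s ω.reverse = false) :
    cs.length (cs.wordProd (ω.map p)) < cs.length (cs.wordProd (ω.map p) * cs.simple (p s)) :=
  rasc_word hR (by rw [← List.map_reverse, isRed_map hp, h])
    (by rw [← List.map_reverse, ld_map hp, h2])

/-- the sign character which detects `c` -/
def gg (p : Fin 5 → B) (i : B) : ℤˣ := if i = p 4 then -1 else 1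

lemma gg_lift (hR : RA M) : M.IsLiftable (gg p) := by
  intro i j
  by_cases h : i = j
  · subst h
    rw [M.diagonal, pow_one]
    unfold gg
    split_ifs <;> simp
  · rcases hR i j h with h1 | h1
    · rw [h1, ← Int.units_sq (gg p i * gg p j)]
    · rw [h1, pow_zero]

lemma sign_word (hR : RA M) (ω : List B) :
    cs.lift ⟨gg p, gg_lift hR⟩ (cs.wordProd ω) = (ω.map (gg p)).prod := by
  induction ω with
  | nil => simp
  | cons i ω ih => rw [cs.wordProd_cons, map_mul, ih, cs.lift_apply_simple (gg_lift hR)]; simp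

lemma incomp5 (hR : RA M) (hp : ∀ i j, M (p i) (p j) = M5 i j) (K : KLData cs)
    (ω : List (Fin 5)) (h4 : 4 ∉ ω) (hl : 3 < cs.length (cs.wordProd (ω.map p))) :
    K.mu (cs.wordProd ([0, 2, 4].map p)) (cs.wordProd (ω.map p)) = 0 := by
  have l0 : cs.length (cs.wordProd (([0, 2, 4] : List (Fin 5)).map p)) = 3 :=
    len5 hR hp (by decide)
  apply mu_incomp
  · intro h
    obtain ⟨ω', h1, h2⟩ := ShiftFails.ble_word h (ω.map p) rfl
    have h3 := congrArg (cs.lift ⟨gg p, gg_lift hR⟩) h2
    rw [sign_word hR, sign_word hR] at h3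
    have h5 : (ω'.map (gg p)).prod = 1 := by
      apply List.prod_eq_one
      intro x hx
      obtain ⟨i, hi, rfl⟩ := List.mem_map.1 hx
      obtain ⟨i', hi', rfl⟩ := List.mem_map.1 (h1.subset hi)
      have : p i' ≠ p 4 := by
        intro e
        rw [inj5 hp e] at hi'
        exact h4 hi'
      simp [gg, this]
    rw [h5] at h3
    have n0 : p 0 ≠ p 4 := fun e => absurd (inj5 hp e) (by decide)
    have n2 : p 2 ≠ p 4 := fun e => absurd (inj5 hp e) (by decide)
    simp only [List.map_cons, List.map_nil, gg, n0, n2, if_false, if_true, List.prod_cons,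
      List.prod_nil, one_mul, mul_one] at h3
    exact absurd h3 (by decide)
  · intro h
    rcases h.length with h1 | h1
    · rw [h1, l0] at hl; omega
    · omega

lemma drop_c (hp : ∀ i j, M (p i) (p j) = M5 i j) (Q : List (Fin 5)) :
    cs.wordProd (([0, 2, 4, 1, 3] ++ 4 :: Q).map p) = cs.wordProd (([0, 2, 1, 3] ++ Q).map p) := by
  have hc : cs.simple (p 4) * cs.wordProd [p 1, p 3] = cs.wordProd [p 1, p 3] * cs.simple (p 4) := by
    apply comm_wordProd
    intro q hq
    right
    simp only [List.mem_cons, List.not_mem_nil, or_false] at hq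
    rcases hq with rfl | rfl
    · rw [hp]; rfl
    · rw [hp]; rfl
  have e1 : ([(0 : Fin 5), 2, 4, 1, 3] ++ 4 :: Q).map p =
      [p 0, p 2] ++ (p 4 :: ([p 1, p 3] ++ (p 4 :: Q.map p))) := by simp
  have e2 : ([(0 : Fin 5), 2, 1, 3] ++ Q).map p = [p 0, p 2] ++ ([p 1, p 3] ++ Q.map p) := by simp
  rw [e1, e2, cs.wordProd_append [p 0, p 2] (p 4 :: ([p 1, p 3] ++ (p 4 :: Q.map p))),
    cs.wordProd_append [p 0, p 2] ([p 1, p 3] ++ Q.map p),
    cs.wordProd_cons (p 4) ([p 1, p 3] ++ (p 4 :: Q.map p)),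
    cs.wordProd_append [p 1, p 3] (p 4 :: Q.map p), cs.wordProd_append [p 1, p 3] (Q.map p),
    cs.wordProd_cons (p 4) (Q.map p),
    ← mul_assoc (cs.simple (p 4)) (cs.wordProd [p 1, p 3]), hc,
    mul_assoc (cs.wordProd [p 1, p 3]),
    ← mul_assoc (cs.simple (p 4)) (cs.simple (p 4)), cs.simple_mul_simple_self, one_mul]

/-- the eight `μ` values vanish -/
lemma mu5 (hR : RA M) (hp : ∀ i j, M (p i) (p j) = M5 i j) (K : KLData cs) (Q : List (Fin 5))
    (hQ : Q.Sublist [0, 2, 4]) :
    K.mu (cs.wordProd ([0, 2, 4].map p))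
      (cs.wordProd ([0, 2, 4].map p) * cs.wordProd ([1, 3].map p) * (cs.wordProd (Q.map p))⁻¹)
        = 0 := by
  have e : cs.wordProd (([0, 2, 4] : List (Fin 5)).map p) * cs.wordProd (([1, 3] : List (Fin 5)).map p) *
      (cs.wordProd (Q.map p))⁻¹ = cs.wordProd (([0, 2, 4, 1, 3] ++ Q.reverse).map p) := by
    rw [← cs.wordProd_reverse, ← List.map_reverse, ← cs.wordProd_append, ← cs.wordProd_append,
      ← List.map_append, ← List.map_append]
    rfl
  rw [e]
  have hQ' : Q ∈ List.sublists [(0 : Fin 5), 2, 4] := List.mem_sublists.2 hQ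
  have l0 : cs.length (cs.wordProd (([0, 2, 4] : List (Fin 5)).map p)) = 3 :=
    len5 hR hp (by decide)
  have hs : List.sublists [(0 : Fin 5), 2, 4] =
      [[], [0], [2], [0, 2], [4], [0, 4], [2, 4], [0, 2, 4]] := by decide
  rw [hs] at hQ'
  simp only [List.mem_cons, List.not_mem_nil, or_false] at hQ'
  rcases hQ' with rfl | rfl | rfl | rfl | rfl | rfl | rfl | rfl
  · have l1 : cs.length (cs.wordProd (([0, 2, 4, 1, 3] ++ ([] : List (Fin 5)).reverse).map p)) = 5 :=
      len5 hR hp (by decide)
    exact mu_desc K (by omega) (p 1) (rdesc5 hR hp (by decide) (by decide))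
      (rasc5 hR hp (by decide) (by decide)) (by omega)
  · have l1 : cs.length (cs.wordProd (([0, 2, 4, 1, 3] ++ [(0 : Fin 5)].reverse).map p)) = 6 :=
      len5 hR hp (by decide)
    exact mu_desc K (by omega) (p 3) (rdesc5 hR hp (by decide) (by decide))
      (rasc5 hR hp (by decide) (by decide)) (by omega)
  · have l1 : cs.length (cs.wordProd (([0, 2, 4, 1, 3] ++ [(2 : Fin 5)].reverse).map p)) = 6 :=
      len5 hR hp (by decide)
    exact mu_desc K (by omega) (p 1) (rdesc5 hR hp (by decide) (by decide))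
      (rasc5 hR hp (by decide) (by decide)) (by omega)
  · have l1 : cs.length (cs.wordProd (([0, 2, 4, 1, 3] ++ [(0 : Fin 5), 2].reverse).map p)) = 7 :=
      len5 hR hp (by decide)
    exact mu_even K (by omega) (by rw [l0, l1]; decide)
  · have e4 : [(4 : Fin 5)].reverse = 4 :: [] := rfl
    rw [e4, drop_c hp]
    have l1 : cs.length (cs.wordProd (([0, 2, 1, 3] ++ ([] : List (Fin 5))).map p)) = 4 :=
      len5 hR hp (by decide)
    exact incomp5 hR hp K _ (by decide) (by omega)
  · have e4 : [(0 : Fin 5), 4].reverse = 4 :: [0] := rfl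
    rw [e4, drop_c hp]
    have l1 : cs.length (cs.wordProd (([0, 2, 1, 3] ++ [(0 : Fin 5)]).map p)) = 5 :=
      len5 hR hp (by decide)
    exact incomp5 hR hp K _ (by decide) (by omega)
  · have e4 : [(2 : Fin 5), 4].reverse = 4 :: [2] := rfl
    rw [e4, drop_c hp]
    have l1 : cs.length (cs.wordProd (([0, 2, 1, 3] ++ [(2 : Fin 5)]).map p)) = 5 :=
      len5 hR hp (by decide)
    exact incomp5 hR hp K _ (by decide) (by omega)
  · have e4 : [(0 : Fin 5), 2, 4].reverse = 4 :: [2, 0] := rfl
    rw [e4, drop_c hp]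
    have l1 : cs.length (cs.wordProd (([0, 2, 1, 3] ++ [(2 : Fin 5), 0]).map p)) = 6 :=
      len5 hR hp (by decide)
    exact incomp5 hR hp K _ (by decide) (by omega)

lemma clq024 : Clq M5 [0, 2, 4] := ⟨by decide, by decide⟩
lemma clq13 : Clq M5 [1, 3] := ⟨by decide, by decide⟩
lemma clq413 : Clq M5 [4, 1, 3] := ⟨by decide, by decide⟩

lemma hyp5 (hR : RA M) (hN : NoFour M) (hp : ∀ i j, M (p i) (p j) = M5 i j) (K : KLData cs) :
    K.HypS 1 (cs.wordProd ([0, 2, 4].map p)) (cs.wordProd ([1, 3].map p)) := by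
  have l0 : cs.length (cs.wordProd (([0, 2, 4] : List (Fin 5)).map p)) = 3 :=
    len5 hR hp (by decide)
  have l1 : cs.length (cs.wordProd (([1, 3] : List (Fin 5)).map p)) = 2 := len5 hR hp (by decide)
  have l3 : cs.length (cs.wordProd (([0, 2] : List (Fin 5)).map p)) = 2 := len5 hR hp (by decide)
  have l4 : cs.length (cs.wordProd (([4, 1, 3] : List (Fin 5)).map p)) = 3 :=
    len5 hR hp (by decide)
  have l5 : cs.length (cs.wordProd (([4] : List (Fin 5)).map p)) = 1 := len5 hR hp (by decide)
  have w5 : cs.wordProd (([0, 2, 4] : List (Fin 5)).map p) * cs.wordProd (([1, 3] : List (Fin 5)).map p)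
      = cs.wordProd (([0, 2, 4, 1, 3] : List (Fin 5)).map p) := by
    rw [← cs.wordProd_append, ← List.map_append]; rfl
  have l2 : cs.length (cs.wordProd (([0, 2, 4] : List (Fin 5)).map p) *
      cs.wordProd (([1, 3] : List (Fin 5)).map p)) = 5 := by
    rw [w5]
    exact len5 hR hp (by decide)
  have hD := D_clq K hR (clq_le hN) (clq_map hp clq13) (by simp) (by simp) (by simp)
  have ha0 := a_clq K hR (clq_le hN) (clq_map hp clq024) (by simp)
  refine ⟨?_, hD, ?_, ?_, ?_⟩
  · rw [one_mul]
    refine ⟨⟨by simp, by simp, inFinPar_clq (clq_map hp clq024)⟩, ?_⟩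
    rintro ⟨x', v', y', u, u', _, h1, h2, _, h3⟩
    have h4 := h1.2
    have h5 := h2.2
    unfold Red at h4 h5
    rw [← h1.1, cs.length_one] at h4
    rw [← h2.1, cs.length_one] at h5
    omega
  · unfold Red; rw [one_mul, l2, l0, l1]
  · rw [one_mul]
    intro h
    apply h.2
    refine ⟨cs.wordProd (([0, 2] : List (Fin 5)).map p), cs.wordProd (([4, 1, 3] : List (Fin 5)).map p),
      1, cs.wordProd (([4] : List (Fin 5)).map p), 1,
      ⟨?_, ?_, inFinPar_clq (clq_map hp clq413)⟩, ⟨?_, ?_⟩, ⟨by simp, by unfold Red; simp⟩,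
      ⟨?_, ?_⟩, ?_⟩
    · rw [mul_one, w5, ← cs.wordProd_append, ← List.map_append]; rfl
    · rw [l2, l3, l4, cs.length_one]
    · rw [← cs.wordProd_append, ← List.map_append]; rfl
    · unfold Red; rw [← cs.wordProd_append, ← List.map_append, l3, l5]; exact l0
    · rw [mul_one, ← cs.wordProd_append, ← List.map_append]; rfl
    · rw [l4, l5, l1, cs.length_one]
    · rw [l5]; norm_num
  · rw [one_mul, ha0]
    apply le_antisymm
    · exact a_le_N K hR (clq_le hN) _
    · refine a_lower K hR _ (([0, 2, 4] : List (Fin 5)).map p) (clq_map hp clq024) ?_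
      intro i hi
      rw [w5]
      obtain ⟨i', hi', rfl⟩ := List.mem_map.1 hi
      simp only [List.mem_cons, List.not_mem_nil, or_false] at hi'
      rcases hi' with rfl | rfl | rfl
      · exact ldesc5 hR hp (by decide) (by decide)
      · exact ldesc5 hR hp (by decide) (by decide)
      · exact ldesc5 hR hp (by decide) (by decide)

/-- the eight cases together -/
lemma key5 (hR : RA M) (hp : ∀ i j, M (p i) (p j) = M5 i j) (K : KLData cs) (v01 v02 v03 : W)
    (h : KLData.Fact3 cs (cs.wordProd ([0, 2, 4].map p)) v01 v02 v03) :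
    K.mu (cs.wordProd ([0, 2, 4].map p))
      (cs.wordProd ([0, 2, 4].map p) * cs.wordProd ([1, 3].map p) * v02⁻¹) = 0 := by
  have h1 : v01 * (v02 * v03) = cs.wordProd (([0, 2, 4] : List (Fin 5)).map p) := by
    rw [h.1, mul_assoc]
  have h2 := h.2
  rw [← h1] at h2
  have h3 := cs.length_mul_le v01 (v02 * v03)
  have h4 := cs.length_mul_le v02 v03
  obtain ⟨ω', h5, h6⟩ := suffix_word _ (([0, 2, 4] : List (Fin 5)).map p) v01 (v02 * v03) rfl h1
    (by unfold Red; omega)
  obtain ⟨ω'', h7, h8⟩ := prefix_word h6 (by unfold Red; omega)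
  obtain ⟨Q, hQ, rfl⟩ := List.sublist_map_iff.1 (h7.trans h5)
  rw [h8]
  exact mu5 hR hp K Q hQ

lemma infinite5 (hR : RA M) (hp : ∀ i j, M (p i) (p j) = M5 i j) (cs : CoxeterSystem M W) :
    Infinite W := by
  let f : B → DihedralGroup 0 := fun i =>
    if i = p 0 then .sr 0 else if i = p 1 then .sr 1 else 1
  have n01 : p 1 ≠ p 0 := fun e => absurd (inj5 hp e) (by decide)
  have hf : M.IsLiftable f := by
    intro i j
    by_cases h : i = j
    · subst h
      rw [M.diagonal, pow_one]
      simp only [f]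
      split_ifs
      · decide
      · decide
      · simp
    · rcases hR i j h with h1 | h1
      · rw [h1]
        simp only [f]
        split_ifs with a1 a2 a3 a4 a5 a6 a7
        · exact absurd (a1.trans a2.symm) h
        · exfalso
          rw [a1, a3, hp] at h1
          exact absurd h1 (by decide)
        · decide
        · exfalso
          rw [a4, a5, hp] at h1
          exact absurd h1 (by decide)
        · exact absurd (a4.trans a6.symm) h
        · decide
        · decide
        · decide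
        · simp
      · rw [h1, pow_zero]
  by_contra hcon
  rw [not_infinite_iff_finite] at hcon
  have h1 : IsOfFinOrder (cs.simple (p 0) * cs.simple (p 1)) := isOfFinOrder_of_finite _
  have h2 := (cs.lift ⟨f, hf⟩).isOfFinOrder h1
  rw [map_mul, cs.lift_apply_simple hf, cs.lift_apply_simple hf] at h2
  have h3 : f (p 0) * f (p 1) = DihedralGroup.r 1 := by
    simp only [f, n01, if_false, if_true]
    decide
  rw [h3, ← orderOf_pos_iff, DihedralGroup.orderOf_r_one] at h2
  exact lt_irrefl _ h2

end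

/-- The free product of `D_∞ × D_∞ × ℤ/2` and `k` copies of `ℤ/2`: the Coxeter matrix `M5` with
`k` further generators which do not commute with any other generator. -/
def Mk (k : ℕ) : CoxeterMatrix (Fin 5 ⊕ Fin k) where
  M := Matrix.of fun i j => if i = j then 1 else
    match i, j with
    | .inl a, .inl b => M5 a b
    | _, _ => 0
  isSymm := by
    ext i j
    simp only [Matrix.transpose_apply, Matrix.of_apply]
    by_cases h : i = j
    · simp [h]
    · simp only [h, Ne.symm h, if_false]
      rcases i with a | a <;> rcases j with b | b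
      · exact M5.symmetric b a
      · rfl
      · rfl
      · rfl
  diagonal := by
    intro i
    simp
  off_diagonal := by
    intro i j h
    simp only [Matrix.of_apply, h, if_false]
    rcases i with a | a <;> rcases j with b | b
    · exact M5.off_diagonal a b (fun e => h (by rw [e]))
    · norm_num
    · norm_num
    · norm_num

lemma Mk_inl (k : ℕ) (i j : Fin 5) : Mk k (Sum.inl i) (Sum.inl j) = M5 i j := by
  show (if _ = _ then 1 else M5 i j) = M5 i j
  by_cases h : i = j
  · rw [if_pos (by rw [h]), h]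
    exact (M5.diagonal j).symm
  · rw [if_neg (fun e => h (Sum.inl_injective e))]

lemma Mk_inr {k : ℕ} {i : Fin k} {j : Fin 5 ⊕ Fin k} (h : Sum.inr i ≠ j) :
    Mk k (Sum.inr i) j = 0 := by
  show (if Sum.inr i = j then 1 else _) = 0
  rw [if_neg h]

lemma Mk_RA (k : ℕ) : RA (Mk k) := by
  intro i j h
  rcases i with a | a
  · rcases j with b | b
    · rw [Mk_inl]
      have : ∀ i j : Fin 5, i ≠ j → M5 i j = 2 ∨ M5 i j = 0 := by decide
      exact this a b (fun e => h (by rw [e]))
    · right
      rw [(Mk k).symmetric, Mk_inr h.symm]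
  · right
    rw [Mk_inr h]

lemma Mk_noFour (k : ℕ) : NoFour (Mk k) := by
  classical
  intro s hs
  by_cases h : ∃ r : Fin k, Sum.inr r ∈ s
  · obtain ⟨r, hr⟩ := h
    have : s ⊆ {Sum.inr r} := by
      intro j hj
      rw [Finset.mem_singleton]
      by_contra hne
      have h1 := hs _ hr _ hj (Ne.symm hne)
      rw [Mk_inr (Ne.symm hne)] at h1
      exact absurd h1 (by norm_num)
    exact (Finset.card_le_card this).trans (by simp)
  · have h5 : ∀ t : Finset (Fin 5), (∀ i ∈ t, ∀ j ∈ t, i ≠ j → M5 i j = 2) → t.card ≤ 3 := by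
      decide
    have h6 := h5 (Finset.univ.filter (fun i : Fin 5 => (Sum.inl i : Fin 5 ⊕ Fin k) ∈ s)) (by
      intro i hi j hj hij
      rw [← Mk_inl k]
      exact hs _ (Finset.mem_filter.1 hi).2 _ (Finset.mem_filter.1 hj).2
        (fun e => hij (Sum.inl_injective e)))
    have h7 : s ⊆ (Finset.univ.filter (fun i : Fin 5 => (Sum.inl i : Fin 5 ⊕ Fin k) ∈ s)).image
        Sum.inl := by
      intro j hj
      rcases j with b | b
      · exact Finset.mem_image.2 ⟨b, Finset.mem_filter.2 ⟨Finset.mem_univ _, hj⟩, rfl⟩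
      · exact absurd ⟨b, hj⟩ h
    exact ((Finset.card_le_card h7).trans Finset.card_image_le).trans h6

lemma Mk_irred (k : ℕ) : Irred (Mk (k + 1)) := by
  have h0 : ∀ j, Mk (k + 1) (Sum.inr 0) j ≠ 2 := by
    intro j
    by_cases h : Sum.inr 0 = j
    · rw [← h, (Mk (k + 1)).diagonal]; norm_num
    · rw [Mk_inr h]; norm_num
  intro s ⟨i, hi⟩ ⟨j, hj⟩
  by_cases h : (Sum.inr 0 : Fin 5 ⊕ Fin (k + 1)) ∈ s
  · exact ⟨Sum.inr 0, h, j, hj, h0 j⟩
  · refine ⟨i, hi, Sum.inr 0, h, ?_⟩
    rw [(Mk (k + 1)).symmetric]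
    exact h0 i

/-- First part: let `(W, S)` be a right-angled Coxeter system (`RA M`: all `m(i, j)` with `i ≠ j`
are `2` or `∞`), `S` finite, such that no four generators commute pairwise, and let
`a, g, b, d, c` (that is `p 0, …, p 4`) be generators such that `a, g` commute with `b, d`, the
generator `c` commutes with `a, g, b, d`, and `a, g` do not commute, `b, d` do not commute.  Then `W`
is infinite, has Kazhdan-Lusztig data, and the statement of Q1 fails for it.  More precisely
`y = e`, `w = v_0 = a b c` and `v_1 = g d` satisfy all hypotheses of Q1 and `v_1 ≠ e`, but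
`μ(w, w'' v_{02}⁻¹) = 0` for every factorization `v_0 = v_{01} . v_{02} . v_{03}`.
Second part: such systems exist, irreducible, of every rank `≥ 6` (for example `Mk (k + 1)`). -/
theorem result :
    (∀ (B : Type) [Finite B] (M : CoxeterMatrix B), RA M → NoFour M →
      ∀ p : Fin 5 → B, (∀ i j, M (p i) (p j) = M5 i j) →
      ∀ (W : Type) [Group W] (cs : CoxeterSystem M W),
        Infinite W ∧ Nonempty (KLData cs) ∧ ∀ K : KLData cs, ¬ K.StatementS ∧
          ∀ v0 v1 : W, v0 = cs.simple (p 0) * cs.simple (p 2) * cs.simple (p 4) →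
            v1 = cs.simple (p 1) * cs.simple (p 3) →
            K.HypS 1 v0 v1 ∧ v1 ≠ 1 ∧ ∀ v01 v02 v03, KLData.Fact3 cs v0 v01 v02 v03 →
              K.mu v0 (v0 * v1 * v02⁻¹) = 0) ∧
    (∀ k : ℕ, ∃ M : CoxeterMatrix (Fin 5 ⊕ Fin (k + 1)), Irred M ∧ RA M ∧ NoFour M ∧
      ∀ i j, M (Sum.inl i) (Sum.inl j) = M5 i j) := by
  refine ⟨?_, fun k => ⟨Mk (k + 1), Mk_irred k, Mk_RA _, Mk_noFour _, Mk_inl _⟩⟩
  intro B _ M hR hN p hp W _ cs
  classical
  have := Fintype.ofFinite B
  refine ⟨infinite5 hR hp cs, exists_KLData cs, ?_⟩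
  intro K
  have l1 : cs.length (cs.wordProd (([1, 3] : List (Fin 5)).map p)) = 2 := len5 hR hp (by decide)
  refine ⟨?_, ?_⟩
  · intro hQ
    obtain ⟨v01, v02, v03, hc⟩ := hQ _ _ _ (hyp5 hR hN hp K)
    apply hc.mu_ne
    rw [one_mul]
    exact key5 hR hp K v01 v02 v03 hc.fact
  · intro v0 v1 hv0 hv1
    have e1 : cs.simple (p 0) * cs.simple (p 2) * cs.simple (p 4) =
        cs.wordProd (([0, 2, 4] : List (Fin 5)).map p) := by
      simp [cs.wordProd_cons, mul_assoc]
    have e2 : cs.simple (p 1) * cs.simple (p 3) =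
        cs.wordProd (([1, 3] : List (Fin 5)).map p) := by
      simp [cs.wordProd_cons]
    rw [hv0, hv1, e1, e2]
    refine ⟨hyp5 hR hN hp K, ?_, fun v01 v02 v03 h => key5 hR hp K v01 v02 v03 h⟩
    intro h
    rw [h, cs.length_one] at l1
    omega

end Pool.Agent.Results.MP_fcc599_al.AllContaining
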